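import Mathlib

set_option autoImplicit false

namespace Pool.Agent.Y394.EQ

/-- `S` is a maximal stable set of `G`. -/
def MaxStable {V : Type} (G : SimpleGraph V) (S : Finset V) : Prop :=
  Maximal (fun T : Finset V => G.IsIndepSet (T : Set V)) S

/-- `S` is a maximal clique of `G`. -/
def MaxClique {V : Type} (G : SimpleGraph V) (S : Finset V) : Prop :=
  Maximal (fun T : Finset V => G.IsClique (T : Set V)) S

/-- `G` is equistable. -/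
def Equistable {V : Type} (G : SimpleGraph V) : Prop :=
  ∃ φ : V → ℝ, (∀ v, 0 ≤ φ v) ∧ ∀ S : Finset V, MaxStable G S ↔ ∑ v ∈ S, φ v = 1

/-- `G` is weakly CIS. -/
def WeaklyCIS {V : Type} (G : SimpleGraph V) : Prop :=
  ∃ C S : Set (Finset V), (∀ A ∈ C, MaxClique G A) ∧ (∀ B ∈ S, MaxStable G B) ∧
    (∀ u v, G.Adj u v → ∃ A ∈ C, u ∈ A ∧ v ∈ A) ∧
    (∀ u v, u ≠ v → ¬ G.Adj u v → ∃ B ∈ S, u ∈ B ∧ v ∈ B) ∧
    ∀ A ∈ C, ∀ B ∈ S, ∃ x, x ∈ A ∧ x ∈ B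

end Pool.Agent.Y394.EQ
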