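import Pool.Agent.Y394.EQ.Defs

/-!
The complement of the line graph of a triangle-free graph with nine vertices and fourteen edges.
-/

set_option autoImplicit false

namespace Pool.Agent.Y394.EQ

/-- the fourteen edges -/
def ends : Fin 14 → Fin 9 × Fin 9 :=
  ![(2, 5), (3, 4), (2, 6), (6, 8), (3, 6), (1, 3), (4, 7), (2, 7), (7, 8), (0, 5), (0, 4), (1, 5),
    (0, 8), (1, 8)]

/-- the edge `e` has the end `v` -/
def Inc (v : Fin 9) (e : Fin 14) : Prop := (ends e).1 = v ∨ (ends e).2 = v

instance (v : Fin 9) (e : Fin 14) : Decidable (Inc v e) := by unfold Inc; infer_instance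

/-- disjoint edges -/
def Dis (e f : Fin 14) : Prop := ∀ v, ¬ (Inc v e ∧ Inc v f)

instance (e f : Fin 14) : Decidable (Dis e f) := by unfold Dis; infer_instance

/-- the graph -/
def Gr : SimpleGraph (Fin 14) where
  Adj e f := Dis e f
  symm := ⟨fun _ _ h v hv => h v ⟨hv.2, hv.1⟩⟩
  loopless := ⟨fun e h => h (ends e).1 ⟨Or.inl rfl, Or.inl rfl⟩⟩

instance : DecidableRel Gr.Adj := fun e f => by
  show Decidable (Dis e f)
  infer_instance

/-- the star of a vertex -/
def star (v : Fin 9) : Finset (Fin 14) := Finset.univ.filter (fun e => Inc v e)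

/-- the weights -/
def w : Fin 14 → ℕ := ![38, 22, 42, 28, 50, 48, 55, 40, 25, 36, 43, 46, 41, 26]

/-- the masks of the stars -/
def starMask : Fin 9 → ℕ := ![5632, 10272, 133, 50, 1090, 2561, 28, 448, 12552]

/-- the masks of the sets of nonneighbours -/
def nonMask : Fin 14 → ℕ :=
  ![2693, 1138, 157, 12572, 62, 10290, 1474, 453, 12744, 7681, 5698, 10785, 14088, 14632]

theorem starMask_spec : ∀ (v : Fin 9) (e : Fin 14), (starMask v).testBit (e : ℕ) = decide (Inc v e) := by decide +kernel

theorem starMask_lt : ∀ v, starMask v < 2 ^ 14 := by decide +kernel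

theorem nonMask_spec : ∀ (e f : Fin 14), (nonMask e).testBit (f : ℕ) = ! decide (Dis e f) := by decide +kernel

theorem nonMask_lt : ∀ v, nonMask v < 2 ^ 14 := by decide +kernel

/-- the mask of a set -/
def mask (S : Finset (Fin 14)) : ℕ := Nat.ofBits (fun i : Fin 14 => decide (i ∈ S))

theorem mask_lt (S : Finset (Fin 14)) : mask S < 2 ^ 14 := Nat.ofBits_lt_two_pow _

theorem mask_testBit (S : Finset (Fin 14)) (i : Fin 14) :
    (mask S).testBit (i : ℕ) = decide (i ∈ S) := by
  rw [mask, Nat.testBit_ofBits_lt _ _ i.2]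

theorem eq_of_mask {b c : ℕ} (hb : b < 2 ^ 14) (hc : c < 2 ^ 14)
    (h : ∀ i : Fin 14, b.testBit (i : ℕ) = c.testBit (i : ℕ)) : b = c := by
  apply Nat.eq_of_testBit_eq
  intro i
  by_cases hi : i < 14
  · exact h ⟨i, hi⟩
  · have h2 : 2 ^ 14 ≤ 2 ^ i := Nat.pow_le_pow_right (by norm_num) (by omega)
    rw [Nat.testBit_lt_two_pow (lt_of_lt_of_le hb h2), Nat.testBit_lt_two_pow (lt_of_lt_of_le hc h2)]

theorem star_of_mask (S : Finset (Fin 14)) (v : Fin 9) (h : mask S = starMask v) : S = star v := by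
  ext e
  have h1 := mask_testBit S e
  rw [h, starMask_spec] at h1
  simp only [star, Finset.mem_filter, Finset.mem_univ, true_and]
  exact (decide_eq_decide.1 h1).symm

/-- the weight of a mask -/
def bsum (b : ℕ) : ℕ :=
  cond (b.testBit 0) 38 0 + cond (b.testBit 1) 22 0 + cond (b.testBit 2) 42 0 +
  cond (b.testBit 3) 28 0 + cond (b.testBit 4) 50 0 + cond (b.testBit 5) 48 0 +
  cond (b.testBit 6) 55 0 + cond (b.testBit 7) 40 0 + cond (b.testBit 8) 25 0 +
  cond (b.testBit 9) 36 0 + cond (b.testBit 10) 43 0 + cond (b.testBit 11) 46 0 +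
  cond (b.testBit 12) 41 0 + cond (b.testBit 13) 26 0

/-- is it a star? -/
def isStar (b : ℕ) : Bool := [5632, 10272, 133, 50, 1090, 2561, 28, 448, 12552].contains b

/-- first check -/
def chk1 (b : ℕ) : Bool := !(Nat.beq (bsum b) 120) || isStar b

/-- membership in `b` is the same as being nonadjacent to all members of `b` -/
def maxb (b : ℕ) : Bool :=
  (b.testBit 0 == Nat.beq (b &&& 2693) b) && (b.testBit 1 == Nat.beq (b &&& 1138) b) &&
  (b.testBit 2 == Nat.beq (b &&& 157) b) && (b.testBit 3 == Nat.beq (b &&& 12572) b) &&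
  (b.testBit 4 == Nat.beq (b &&& 62) b) && (b.testBit 5 == Nat.beq (b &&& 10290) b) &&
  (b.testBit 6 == Nat.beq (b &&& 1474) b) && (b.testBit 7 == Nat.beq (b &&& 453) b) &&
  (b.testBit 8 == Nat.beq (b &&& 12744) b) && (b.testBit 9 == Nat.beq (b &&& 7681) b) &&
  (b.testBit 10 == Nat.beq (b &&& 5698) b) && (b.testBit 11 == Nat.beq (b &&& 10785) b) &&
  (b.testBit 12 == Nat.beq (b &&& 14088) b) && (b.testBit 13 == Nat.beq (b &&& 14632) b)

/-- second check -/
def chk2 (b : ℕ) : Bool := !(maxb b) || isStar b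

theorem chk_all : ∀ i < 128, ∀ j < 128, (chk1 (128 * i + j) && chk2 (128 * i + j)) = true := by
  decide +kernel

theorem chk_lt (b : ℕ) (hb : b < 2 ^ 14) : chk1 b = true ∧ chk2 b = true := by
  have h := chk_all (b / 128) (by omega) (b % 128) (by omega)
  rw [Nat.div_add_mod] at h
  simpa using h

theorem isStar_spec (b : ℕ) (h : isStar b = true) : ∃ v, b = starMask v := by
  simp only [isStar, List.contains_iff_mem, List.mem_cons, List.not_mem_nil, or_false] at h
  rcases h with h | h | h | h | h | h | h | h | h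
  · exact ⟨0, h⟩
  · exact ⟨1, h⟩
  · exact ⟨2, h⟩
  · exact ⟨3, h⟩
  · exact ⟨4, h⟩
  · exact ⟨5, h⟩
  · exact ⟨6, h⟩
  · exact ⟨7, h⟩
  · exact ⟨8, h⟩

theorem bsum_mask (S : Finset (Fin 14)) : bsum (mask S) = ∑ e ∈ S, w e := by
  have h1 : ∑ e ∈ S, w e = ∑ e : Fin 14, if e ∈ S then w e else 0 := by
    rw [Finset.sum_ite_mem, Finset.univ_inter]
  have h2 : ∀ e : Fin 14, (if e ∈ S then w e else 0) = cond ((mask S).testBit (e : ℕ)) (w e) 0 := by
    intro e
    rw [mask_testBit]
    by_cases he : e ∈ S <;> simp [he]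
  rw [h1, Finset.sum_congr rfl (fun e _ => h2 e)]
  simp only [Fin.sum_univ_succ, Fin.sum_univ_zero]
  simp only [bsum, w]
  simp
  ring

theorem star_of_sum (S : Finset (Fin 14)) (h : ∑ e ∈ S, w e = 120) : ∃ v, S = star v := by
  have h1 := (chk_lt (mask S) (mask_lt S)).1
  have h2 : Nat.beq (bsum (mask S)) 120 = true := by
    rw [bsum_mask, h]
    rfl
  simp only [chk1, h2, Bool.not_true, Bool.false_or] at h1
  obtain ⟨v, hv⟩ := isStar_spec _ h1
  exact ⟨v, star_of_mask S v hv⟩

theorem sum_star : ∀ v, ∑ e ∈ star v, w e = 120 := by decide +kernel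

theorem beq_land (S : Finset (Fin 14)) (e : Fin 14) :
    Nat.beq (mask S &&& nonMask e) (mask S) = true ↔ ∀ f ∈ S, ¬ Gr.Adj e f := by
  have h0 : Nat.beq (mask S &&& nonMask e) (mask S) = true ↔ mask S &&& nonMask e = mask S := by
    constructor
    · intro h; exact Nat.eq_of_beq_eq_true h
    · intro h; rw [h]; exact Nat.beq_refl _
  rw [h0]
  constructor
  · intro h f hf hadj
    have h1 : (mask S &&& nonMask e).testBit (f : ℕ) = true := by
      rw [h, mask_testBit]
      simpa using hf
    rw [Nat.testBit_land, nonMask_spec] at h1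
    have hd : Dis e f := hadj
    simp [hd] at h1
  · intro h
    apply eq_of_mask _ (mask_lt S)
    · intro f
      rw [Nat.testBit_land, nonMask_spec, mask_testBit]
      by_cases hf : f ∈ S
      · have hd : ¬ Dis e f := h f hf
        simp [hf, hd]
      · simp [hf]
    · exact lt_of_le_of_lt Nat.and_le_left (mask_lt S)

theorem maxb_of (S : Finset (Fin 14))
    (h : ∀ e : Fin 14, (mask S).testBit (e : ℕ) = Nat.beq (mask S &&& nonMask e) (mask S)) :
    maxb (mask S) = true := by
  have k0 : (mask S).testBit 0 = Nat.beq (mask S &&& 2693) (mask S) := h 0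
  have k1 : (mask S).testBit 1 = Nat.beq (mask S &&& 1138) (mask S) := h 1
  have k2 : (mask S).testBit 2 = Nat.beq (mask S &&& 157) (mask S) := h 2
  have k3 : (mask S).testBit 3 = Nat.beq (mask S &&& 12572) (mask S) := h 3
  have k4 : (mask S).testBit 4 = Nat.beq (mask S &&& 62) (mask S) := h 4
  have k5 : (mask S).testBit 5 = Nat.beq (mask S &&& 10290) (mask S) := h 5
  have k6 : (mask S).testBit 6 = Nat.beq (mask S &&& 1474) (mask S) := h 6
  have k7 : (mask S).testBit 7 = Nat.beq (mask S &&& 453) (mask S) := h 7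
  have k8 : (mask S).testBit 8 = Nat.beq (mask S &&& 12744) (mask S) := h 8
  have k9 : (mask S).testBit 9 = Nat.beq (mask S &&& 7681) (mask S) := h 9
  have k10 : (mask S).testBit 10 = Nat.beq (mask S &&& 5698) (mask S) := h 10
  have k11 : (mask S).testBit 11 = Nat.beq (mask S &&& 10785) (mask S) := h 11
  have k12 : (mask S).testBit 12 = Nat.beq (mask S &&& 14088) (mask S) := h 12
  have k13 : (mask S).testBit 13 = Nat.beq (mask S &&& 14632) (mask S) := h 13
  simp only [maxb, k0, k1, k2, k3, k4, k5, k6, k7, k8, k9, k10, k11, k12, k13, beq_self_eq_true,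
    Bool.and_self]

theorem star_of_max (S : Finset (Fin 14)) (h : MaxStable Gr S) : ∃ v, S = star v := by
  have h0 : ∀ e, e ∈ S ↔ ∀ f ∈ S, ¬ Gr.Adj e f := by
    intro e
    constructor
    · intro he f hf hef
      exact h.1 (Finset.mem_coe.2 he) (Finset.mem_coe.2 hf) hef.ne hef
    · intro he
      have h1 : Gr.IsIndepSet ((insert e S : Finset (Fin 14)) : Set (Fin 14)) := by
        intro x hx y hy hxy
        simp only [Finset.coe_insert, Set.mem_insert_iff, Finset.mem_coe] at hx hy
        rcases hx with rfl | hx <;> rcases hy with rfl | hy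
        · exact absurd rfl hxy
        · exact he y hy
        · intro hadj
          exact he x hx hadj.symm
        · exact h.1 (Finset.mem_coe.2 hx) (Finset.mem_coe.2 hy) hxy
      exact h.2 h1 (Finset.subset_insert _ _) (Finset.mem_insert_self _ _)
  have h1 : maxb (mask S) = true := by
    apply maxb_of
    intro e
    rw [mask_testBit, Bool.eq_iff_iff, decide_eq_true_iff, beq_land]
    exact h0 e
  have h2 := (chk_lt (mask S) (mask_lt S)).2
  simp only [chk2, h1, Bool.not_true, Bool.false_or] at h2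
  obtain ⟨v, hv⟩ := isStar_spec _ h2
  exact ⟨v, star_of_mask S v hv⟩

theorem star_indep : ∀ v : Fin 9, ∀ e ∈ star v, ∀ f ∈ star v, ¬ Dis e f := by decide +kernel

theorem star_maximal : ∀ v : Fin 9, ∀ e, e ∉ star v → ∃ f ∈ star v, Dis e f := by decide +kernel

theorem max_of_star (v : Fin 9) : MaxStable Gr (star v) := by
  refine ⟨fun e he f hf _ => star_indep v e he f hf, ?_⟩
  intro T hT hle e he
  by_contra hne
  obtain ⟨f, hf, hef⟩ := star_maximal v e hne
  have h1 : Gr.Adj e f := hef
  exact hT (Finset.mem_coe.2 he) (Finset.mem_coe.2 (hle hf)) h1.ne h1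

theorem equistable : Equistable Gr := by
  refine ⟨fun e => (w e : ℝ) / 120, fun e => by positivity, fun S => ?_⟩
  have h : ∑ e ∈ S, (w e : ℝ) / 120 = 1 ↔ ∑ e ∈ S, w e = 120 := by
    rw [← Finset.sum_div, div_eq_one_iff_eq (by norm_num)]
    exact_mod_cast Iff.rfl
  rw [h]
  constructor
  · intro hS
    obtain ⟨v, rfl⟩ := star_of_max S hS
    exact sum_star v
  · intro hS
    obtain ⟨v, rfl⟩ := star_of_sum S hS
    exact max_of_star v

theorem two_in_star : ∀ v : Fin 9, ∃ e f : Fin 14, e ≠ f ∧ Inc v e ∧ Inc v f ∧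
    ∀ u : Fin 9, Inc u e → Inc u f → u = v := by decide +kernel

theorem card_ends : ∀ e : Fin 14, (Finset.univ.filter (fun v => Inc v e)).card = 2 := by
  decide +kernel

theorem not_weaklyCIS : ¬ WeaklyCIS Gr := by
  classical
  rintro ⟨C, S, hC, hS, hCE, hSE, hCS⟩
  -- all stars are in `S`
  have hstar : ∀ v, star v ∈ S := by
    intro v
    obtain ⟨e, f, hef, he, hf, huv⟩ := two_in_star v
    obtain ⟨B, hB, heB, hfB⟩ := hSE e f hef (fun h => h v ⟨he, hf⟩)
    obtain ⟨u, rfl⟩ := star_of_max B (hS B hB)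
    simp only [star, Finset.mem_filter, Finset.mem_univ, true_and] at heB hfB
    rw [huv u heB hfB] at hB
    exact hB
  -- a maximal clique
  obtain ⟨A, hA, _, _⟩ := hCE 0 1 (by
    show Dis 0 1
    decide +kernel)
  have hcov : ∀ v, ∃ e ∈ A, Inc v e := by
    intro v
    obtain ⟨x, hx, hx'⟩ := hCS A hA (star v) (hstar v)
    simp only [star, Finset.mem_filter, Finset.mem_univ, true_and] at hx'
    exact ⟨x, hx, hx'⟩
  have huniq : ∀ v, ∀ e ∈ A, ∀ f ∈ A, Inc v e → Inc v f → e = f := by
    intro v e he f hf hve hvf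
    by_contra hne
    have := (hC A hA).1 (Finset.mem_coe.2 he) (Finset.mem_coe.2 hf) hne
    exact this v ⟨hve, hvf⟩
  -- double counting
  have h1 : ∑ v : Fin 9, (A.filter (fun e => Inc v e)).card =
      ∑ e ∈ A, ((Finset.univ : Finset (Fin 9)).filter (fun v => Inc v e)).card := by
    simp only [Finset.card_filter]
    exact Finset.sum_comm
  have h2 : ∀ v : Fin 9, (A.filter (fun e => Inc v e)).card = 1 := by
    intro v
    obtain ⟨e, he, hve⟩ := hcov v
    rw [Finset.card_eq_one]
    refine ⟨e, ?_⟩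
    ext f
    simp only [Finset.mem_filter, Finset.mem_singleton]
    constructor
    · rintro ⟨hf, hvf⟩
      exact huniq v f hf e he hvf hve
    · rintro rfl
      exact ⟨he, hve⟩
  rw [Finset.sum_congr rfl (fun v _ => h2 v), Finset.sum_congr rfl (fun e _ => card_ends e)] at h1
  simp at h1
  omega

end Pool.Agent.Y394.EQ
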